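import Mathlib

/-!
# Definitions: convolution operators on `ℓᵖ(G)`, mean ergodicity, power boundedness
-/

open Filter Topology ENNReal

namespace Pool.Agent.Helper58.MeanErgodic

/-- For a discrete group `G` and `μ : G → ℂ` (to be absolutely summable, i.e. an element of
`M(G) = ℓ¹(G)`), `IsConvolutionBy μ T` says that `T` is the operator `λ_p(μ)` of left convolution
by `μ` on `Lᵖ(G) = ℓᵖ(G)`:  `(T f)(x) = ∑_y μ(y) f(y⁻¹ x)`. -/
def IsConvolutionBy {G : Type} [Group G] {p : ℝ≥0∞} (μ : G → ℂ)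
    (T : lp (fun _ : G => ℂ) p → lp (fun _ : G => ℂ) p) : Prop :=
  ∀ (f : lp (fun _ : G => ℂ) p) (x : G), T f x = ∑' y, μ y * f (y⁻¹ * x)

/-- `T` is mean ergodic: for every `f` the Cesàro means `(1/n) ∑_{k<n} T^k f` converge in norm. -/
def MeanErgodic {X : Type} [NormedAddCommGroup X] [NormedSpace ℂ X] (T : X → X) : Prop :=
  ∀ f : X, ∃ g : X, Tendsto (fun n : ℕ => (n : ℂ)⁻¹ • ∑ k ∈ Finset.range n, T^[k] f) atTop (𝓝 g)

/-- `T` is power bounded: there is `C` with `‖T^n f‖ ≤ C ‖f‖` for all `n` and `f`. -/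
def PowerBounded {X : Type} [NormedAddCommGroup X] (T : X → X) : Prop :=
  ∃ C : ℝ, ∀ (n : ℕ) (f : X), ‖T^[n] f‖ ≤ C * ‖f‖

end Pool.Agent.Helper58.MeanErgodic
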