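import Pool.Agent.Helper58.MeanErgodic.Defs

/-!
# A mean ergodic convolution operator that is not power bounded

Let `G = ⊕_{j ∈ ℕ} ℤ/2` (a countable discrete abelian group) with generators `s_j`, let
`ε_j = (π/4) 9^{-(j+1)}` and let `μ = - exp (∑_j i ε_j δ_{s_j}) ∈ ℓ¹(G) = M(G)`.  For every
`1 < p < ∞` the Cesàro means of the powers of `λ_p(μ)` converge to zero in norm, but for `p ≠ 2`
the powers of `λ_p(μ)` are unbounded.
-/

open Filter Topology ENNReal NormedSpace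

namespace Pool.Agent.Helper58.MeanErgodic

variable {G : Type*} [Group G]

section trans
variable (p : ℝ≥0∞) [hp : Fact (1 ≤ p)]

lemma memlp_comp_equiv {α : Type*} {p : ℝ≥0∞} {f : α → ℂ} (e : α ≃ α) (hf : Memℓp f p) :
    Memℓp (fun x => f (e x)) p := by
  rcases p.trichotomy with (rfl | rfl | hp)
  · rw [memℓp_zero_iff] at hf ⊢
    exact hf.preimage e.injective.injOn
  · rw [memℓp_infty_iff] at hf ⊢
    refine hf.mono ?_
    rintro _ ⟨x, rfl⟩
    exact ⟨e x, rfl⟩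
  · rw [memℓp_gen_iff hp] at hf ⊢
    exact (e.summable_iff (f := fun x => ‖f x‖ ^ p.toReal)).mpr hf

lemma norm_comp_equiv {α : Type*} {p : ℝ≥0∞} [hp : Fact (1 ≤ p)] (f g : lp (fun _ : α => ℂ) p) 
    (e : α ≃ α) (h : ∀ x, g x = f (e x)) : ‖g‖ = ‖f‖ := by
  rcases p.trichotomy with (rfl | rfl | hp')
  · exact absurd hp.out (by simp)
  · rw [lp.norm_eq_ciSup, lp.norm_eq_ciSup]
    simp_rw [h]
    exact e.iSup_comp (g := fun x => ‖f x‖)
  · rw [lp.norm_eq_tsum_rpow hp', lp.norm_eq_tsum_rpow hp']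
    simp_rw [h]
    rw [e.tsum_eq (fun x => ‖f x‖ ^ p.toReal)]

/-- left translation -/
noncomputable def trans (g : G) : lp (fun _ : G => ℂ) p →L[ℂ] lp (fun _ : G => ℂ) p :=
  LinearMap.mkContinuous
    { toFun := fun f => ⟨fun x => f (g⁻¹ * x), memlp_comp_equiv (Equiv.mulLeft g⁻¹) f.2⟩
      map_add' := by intro f h; ext x; simp <;> rfl
      map_smul' := by intro c f; ext x; simp } 1 (by
    intro f
    rw [one_mul]
    exact (norm_comp_equiv f _ (Equiv.mulLeft g⁻¹) (fun _ => rfl)).le)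

@[simp] lemma trans_apply (g : G) (f : lp (fun _ : G => ℂ) p) (x : G) : 
    trans p g f x = f (g⁻¹ * x) := rfl

lemma norm_trans_apply (g : G) (f : lp (fun _ : G => ℂ) p) : ‖trans p g f‖ = ‖f‖ := 
  norm_comp_equiv f _ (Equiv.mulLeft g⁻¹) (fun _ => rfl)

lemma norm_trans_le (g : G) : ‖trans p g‖ ≤ 1 := LinearMap.mkContinuous_norm_le _ zero_le_one _

lemma trans_mul (g h : G) : trans p (g * h) = trans p g * trans p h := by
  ext f x
  simp [mul_assoc]

lemma trans_one : trans p (1 : G) = 1 := by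
  ext f x
  simp


lemma summable_smul_trans {a : G → ℂ} (ha : Summable (fun y => ‖a y‖)) : 
    Summable (fun y => a y • trans p y) := by
  apply Summable.of_norm_bounded ha
  intro y
  rw [norm_smul]
  exact mul_le_of_le_one_right (norm_nonneg _) (norm_trans_le p y)

omit [Group G] in
lemma summable_norm_lp_one (a : lp (fun _ : G => ℂ) 1) : Summable (fun y => ‖a y‖) := by
  have := (lp.memℓp a).summable (by norm_num)
  simpa using this

omit [Group G] in
lemma norm_lp_one (a : lp (fun _ : G => ℂ) 1) : ‖a‖ = ∑' y, ‖a y‖ := by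
  have := lp.norm_eq_tsum_rpow (p := 1) (by norm_num) a
  simpa using this

/-- The regular representation of `ℓ¹(G)` on `ℓᵖ(G)`. -/
noncomputable def Lam : lp (fun _ : G => ℂ) 1 →L[ℂ] 
    (lp (fun _ : G => ℂ) p →L[ℂ] lp (fun _ : G => ℂ) p) :=
  LinearMap.mkContinuous
    { toFun := fun a => ∑' y, a y • trans p y
      map_add' := by
        intro a b
        rw [← (summable_smul_trans p (summable_norm_lp_one a)).tsum_add 
          (summable_smul_trans p (summable_norm_lp_one b))]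
        apply tsum_congr
        intro y
        rw [lp.coeFn_add, Pi.add_apply, add_smul]
      map_smul' := by
        intro c a
        rw [RingHom.id_apply, ← (summable_smul_trans p (summable_norm_lp_one a)).tsum_const_smul]
        apply tsum_congr
        intro y
        rw [lp.coeFn_smul, Pi.smul_apply, smul_assoc] } 1 (by
    intro a
    rw [one_mul, norm_lp_one]
    refine (tsum_of_norm_bounded (summable_norm_lp_one a).hasSum ?_)
    intro y
    rw [norm_smul]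
    exact mul_le_of_le_one_right (norm_nonneg _) (norm_trans_le p y))

lemma Lam_apply (a : lp (fun _ : G => ℂ) 1) : Lam p a = ∑' y, a y • trans p y := rfl

lemma Lam_apply_apply (a : lp (fun _ : G => ℂ) 1) (f : lp (fun _ : G => ℂ) p) (x : G) : 
    Lam p a f x = ∑' y, a y * f (y⁻¹ * x) := by
  have h1 := (summable_smul_trans p (summable_norm_lp_one a)).hasSum
  let ev : (lp (fun _ : G => ℂ) p →L[ℂ] lp (fun _ : G => ℂ) p) →L[ℂ] ℂ := 
    (LinearMap.mkContinuous
      { toFun := fun h : lp (fun _ : G => ℂ) p => h x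
        map_add' := by intro f h; rfl
        map_smul' := by intro c f; rfl } 1 (by
        intro h
        rw [one_mul]
        exact lp.norm_apply_le_norm (zero_lt_one.trans_le hp.out).ne' h x)).comp 
    (ContinuousLinearMap.apply ℂ (lp (fun _ : G => ℂ) p) f)
  have h2 := h1.mapL ev
  have h3 : (ev (∑' y, a y • trans p y)) = Lam p a f x := rfl
  rw [h3] at h2
  rw [← h2.tsum_eq]
  apply tsum_congr
  intro y
  simp only [map_smul]
  rfl

lemma Lam_trans (g : G) (a : lp (fun _ : G => ℂ) 1) : Lam p (trans 1 g a) = trans p g * Lam p a := by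
  rw [Lam_apply, Lam_apply, ← (summable_smul_trans p (summable_norm_lp_one a)).tsum_mul_left]
  rw [← (Equiv.mulLeft g).tsum_eq]
  apply tsum_congr
  intro y
  simp [trans_mul]

/-- exponentials of convolution operators are convolution operators -/
lemma Lam_exp {B₁ : lp (fun _ : G => ℂ) 1 →L[ℂ] lp (fun _ : G => ℂ) 1} 
    {B : lp (fun _ : G => ℂ) p →L[ℂ] lp (fun _ : G => ℂ) p} 
    (h : ∀ a, Lam p (B₁ a) = B * Lam p a) (a : lp (fun _ : G => ℂ) 1) :
    Lam p (exp B₁ a) = exp B * Lam p a := by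
  have hpow : ∀ n : ℕ, Lam p ((B₁ ^ n) a) = B ^ n * Lam p a := by
    intro n
    induction n with
    | zero => simp
    | succ n ih => rw [pow_succ', mul_apply_eq_comp, h, ih, pow_succ', mul_assoc]
  have h1 := (exp_series_hasSum_exp' (𝕂 := ℂ) B₁).mapL (ContinuousLinearMap.apply ℂ _ a)
  have h2 := h1.mapL (Lam p)
  have h3 := (exp_series_hasSum_exp' (𝕂 := ℂ) B).mul_right (Lam p a)
  have e : (fun b => (Lam p) ((ContinuousLinearMap.apply ℂ (lp (fun _ : G => ℂ) 1) a) ((b.factorial : ℂ)⁻¹ • B₁ ^ b)))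
     = fun i => (((i.factorial : ℂ))⁻¹ • B ^ i) * (Lam p) a := by
    ext1 n
    rw [ContinuousLinearMap.apply_apply, smul_apply, map_smul, hpow, smul_mul_assoc]
  rw [e] at h2
  exact h2.unique h3


/-- the generator `∑ⱼ i εⱼ λ(sⱼ)` -/
noncomputable def gen (s : ℕ → G) (ε : ℕ → ℝ) : lp (fun _ : G => ℂ) p →L[ℂ] lp (fun _ : G => ℂ) p :=
  ∑' j, (Complex.I * ε j) • trans p (s j)

lemma summable_gen (s : ℕ → G) {ε : ℕ → ℝ} (hε : Summable ε) (hε0 : ∀ j, 0 ≤ ε j) : 
    Summable (fun j => (Complex.I * ε j) • trans p (s j)) := by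
  apply Summable.of_norm_bounded hε
  intro j
  rw [norm_smul]
  have : ‖Complex.I * (ε j : ℂ)‖ = ε j := by simp [abs_of_nonneg (hε0 j)]
  rw [this]
  exact mul_le_of_le_one_right (hε0 j) (norm_trans_le p _)

lemma norm_gen_le (s : ℕ → G) {ε : ℕ → ℝ} (hε : Summable ε) (hε0 : ∀ j, 0 ≤ ε j) : 
    ‖gen p s ε‖ ≤ ∑' j, ε j := by
  refine (tsum_of_norm_bounded hε.hasSum ?_)
  intro j
  rw [norm_smul]
  have : ‖Complex.I * (ε j : ℂ)‖ = ε j := by simp [abs_of_nonneg (hε0 j)]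
  rw [this]
  exact mul_le_of_le_one_right (hε0 j) (norm_trans_le p _)

lemma Lam_gen (s : ℕ → G) {ε : ℕ → ℝ} (hε : Summable ε) (hε0 : ∀ j, 0 ≤ ε j) 
    (a : lp (fun _ : G => ℂ) 1) : Lam p (gen 1 s ε a) = gen p s ε * Lam p a := by
  have h1 := ((summable_gen 1 s hε hε0).hasSum).mapL (ContinuousLinearMap.apply ℂ _ a)
  have h2 := h1.mapL (Lam p)
  have h3 := ((summable_gen p s hε hε0).hasSum).mul_right (Lam p a)
  have e : (fun b => (Lam p) ((ContinuousLinearMap.apply ℂ (lp (fun _ : G => ℂ) 1) a) 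
      ((Complex.I * ε b) • trans 1 (s b)))) = fun i => ((Complex.I * ε i) • trans p (s i)) * (Lam p) a := by
    ext1 j
    rw [ContinuousLinearMap.apply_apply, smul_apply, map_smul, Lam_trans, smul_mul_assoc]
  rw [e] at h2
  exact h2.unique h3

end trans

section banach

variable {𝔸 : Type*} [NormedRing 𝔸] [NormedAlgebra ℂ 𝔸] [CompleteSpace 𝔸]

lemma exp_smul_idem {e : 𝔸} (he : e * e = e) (z : ℂ) :
    exp (z • e) = 1 + (Complex.exp z - 1) • e := by
  have h1 := exp_series_hasSum_exp' (𝕂 := ℂ) (z • e)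
  have hpow : ∀ n : ℕ, e ^ (n + 1) = e := by
    intro n
    induction n with
    | zero => simp
    | succ n ih => rw [pow_succ, ih, he]
  have h2 : HasSum (fun n : ℕ => ((n.factorial : ℂ)⁻¹ * z ^ n) • e) (Complex.exp z • e) := by
    apply HasSum.smul_const
    have := NormedSpace.exp_series_hasSum_exp' (𝕂 := ℂ) z
    rw [← Complex.exp_eq_exp_ℂ] at this
    simpa using this
  have h3 : HasSum (fun n : ℕ => if n = 0 then (1 - e) else 0) (1 - e) := by
    have := hasSum_ite_eq (0 : ℕ) (1 - e)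
    simpa using this
  have h4 := h3.add h2
  have h5 : (fun n : ℕ => (n.factorial : ℂ)⁻¹ • (z • e) ^ n) = 
      fun n : ℕ => (if n = 0 then (1 - e) else 0) + ((n.factorial : ℂ)⁻¹ * z ^ n) • e := by
    ext1 n
    rcases n with _ | n
    · simp
    · rw [smul_pow, hpow]
      simp [smul_smul]
  rw [h5] at h1
  rw [h1.unique h4, sub_smul, one_smul]
  abel

lemma exp_smul_invol {σ : 𝔸} (hσ : σ * σ = 1) (z : ℂ) :
    exp (z • σ) = Complex.cosh z • (1 : 𝔸) + Complex.sinh z • σ := by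
  set e₁ : 𝔸 := (1/2 : ℂ) • (1 + σ) with he₁
  set e₂ : 𝔸 := (1/2 : ℂ) • (1 - σ) with he₂
  have i₁ : e₁ * e₁ = e₁ := by
    rw [he₁, smul_mul_smul_comm, add_mul, mul_add, mul_add, hσ]
    simp only [mul_one, one_mul]
    rw [show (1 + σ + (σ + 1)) = (2:ℂ) • (1 + σ) by rw [two_smul]; abel, smul_smul]
    norm_num
  have i₂ : e₂ * e₂ = e₂ := by
    rw [he₂, smul_mul_smul_comm, sub_mul, mul_sub, mul_sub, hσ]
    simp only [mul_one, one_mul]
    rw [show (1 - σ - (σ - 1)) = (2:ℂ) • (1 - σ) by rw [two_smul]; abel, smul_smul]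
    norm_num
  have i₁₂ : e₁ * e₂ = 0 := by
    rw [he₁, he₂, smul_mul_smul_comm, add_mul, mul_sub, mul_sub, hσ]
    simp
  have i₂₁ : e₂ * e₁ = 0 := by
    rw [he₁, he₂, smul_mul_smul_comm, sub_mul, mul_add, mul_add, hσ]
    simp [add_comm]
  have hcomm : Commute (z • e₁) ((-z) • e₂) := by
    have c : Commute e₁ e₂ := by rw [Commute, SemiconjBy, i₁₂, i₂₁]
    exact (c.smul_left z).smul_right (-z)
  have hz : z • σ = z • e₁ + (-z) • e₂ := by
    rw [he₁, he₂, smul_smul, smul_smul, smul_add, smul_sub]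
    module
  let _ : NormedAlgebra ℚ 𝔸 := NormedAlgebra.restrictScalars ℚ ℂ 𝔸
  rw [hz, exp_add_of_commute hcomm, exp_smul_idem i₁, exp_smul_idem i₂, add_mul, mul_add, mul_add,
    smul_mul_smul_comm, i₁₂]
  rw [he₁, he₂, Complex.cosh, Complex.sinh]
  simp only [one_mul, mul_one, smul_zero, add_zero]
  module


omit [NormedAlgebra ℂ 𝔸] [CompleteSpace 𝔸] in
lemma norm_pow_le' (h1 : ‖(1 : 𝔸)‖ ≤ 1) (x : 𝔸) (n : ℕ) : ‖x ^ n‖ ≤ ‖x‖ ^ n := by
  induction n with
  | zero => simpa using h1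
  | succ n ih =>
    rw [pow_succ, pow_succ]
    exact (norm_mul_le _ _).trans (mul_le_mul_of_nonneg_right ih (norm_nonneg _))

lemma norm_exp_le' (h1 : ‖(1 : 𝔸)‖ ≤ 1) (x : 𝔸) : ‖exp x‖ ≤ Real.exp ‖x‖ := by
  have h := exp_series_hasSum_exp' (𝕂 := ℂ) x
  have h2 := NormedSpace.exp_series_hasSum_exp' (𝕂 := ℝ) ‖x‖
  rw [← Real.exp_eq_exp_ℝ] at h2
  rw [← h.tsum_eq]
  refine tsum_of_norm_bounded h2 ?_
  intro n
  rw [norm_smul]
  simp only [norm_inv, RCLike.norm_natCast, smul_eq_mul]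
  exact mul_le_mul_of_nonneg_left (norm_pow_le' h1 x n) (by positivity)

lemma norm_exp_sub_one_le' (h1 : ‖(1 : 𝔸)‖ ≤ 1) (x : 𝔸) : ‖exp x - 1‖ ≤ Real.exp ‖x‖ - 1 := by
  have h := exp_series_hasSum_exp' (𝕂 := ℂ) x
  have h2 := NormedSpace.exp_series_hasSum_exp' (𝕂 := ℝ) ‖x‖
  rw [← Real.exp_eq_exp_ℝ] at h2
  have h' := (hasSum_nat_add_iff' 1).mpr h
  have h2' := (hasSum_nat_add_iff' 1).mpr h2
  simp only [Finset.range_one, Finset.sum_singleton, Nat.factorial_zero, Nat.cast_one, inv_one,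
    pow_zero, one_smul] at h' h2'
  rw [← h'.tsum_eq]
  refine tsum_of_norm_bounded h2' ?_
  intro n
  rw [norm_smul]
  simp only [norm_inv, RCLike.norm_natCast, smul_eq_mul]
  exact mul_le_mul_of_nonneg_left (norm_pow_le' h1 x _) (by positivity)

/-- Cesàro means of `-E` tend to zero in norm if `‖Eⁿ‖ = O(√n)` and `E` is close to one. -/
lemma cesaro_neg {E : 𝔸} (hE : ‖E - 1‖ < 2) {C : ℝ} (hC : ∀ n : ℕ, ‖E ^ n‖ ≤ C * √n + C) :
    Tendsto (fun n : ℕ => (n : ℂ)⁻¹ • ∑ k ∈ Finset.range n, (-E) ^ k) atTop (𝓝 0) := by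
  have hU : IsUnit (1 - -E) := by
    have h : (1 - -E) = (2 : ℂ) • (1 - (1/2 : ℂ) • (1 - E)) := by
      module
    have hn : ‖(1/2 : ℂ) • (1 - E)‖ < 1 := by
      rw [norm_smul, norm_sub_rev]
      norm_num
      linarith
    rw [h]
    have := (Units.oneSub _ hn).isUnit
    rw [Units.val_oneSub] at this
    exact this.smul (Units.mk0 (2:ℂ) two_ne_zero)
  obtain ⟨u, hu⟩ := hU
  have key : ∀ n : ℕ, ∑ k ∈ Finset.range n, (-E) ^ k = (1 - (-E) ^ n) * (↑u⁻¹ : 𝔸) := by
    intro n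
    rw [← geom_sum_mul_neg, ← hu, mul_assoc, Units.mul_inv, mul_one]
  have hC0 : 0 ≤ C := by
    have := hC 0
    simp at this
    exact (norm_nonneg _).trans this
  rw [tendsto_zero_iff_norm_tendsto_zero]
  have hb : ∀ n : ℕ, 1 ≤ n → ‖(n : ℂ)⁻¹ • ∑ k ∈ Finset.range n, (-E) ^ k‖ ≤ 
      ((‖(1 : 𝔸)‖ + C) * (n : ℝ)⁻¹ + C * (√n)⁻¹) * ‖(↑u⁻¹ : 𝔸)‖ := by
    intro n hn
    have hn' : (0:ℝ) < n := by exact_mod_cast hn
    rw [norm_smul, key n]
    have e1 : ‖(1 - (-E) ^ n) * (↑u⁻¹ : 𝔸)‖ ≤ (‖(1 : 𝔸)‖ + (C * √n + C)) * ‖(↑u⁻¹ : 𝔸)‖ := by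
      refine (norm_mul_le _ _).trans (mul_le_mul_of_nonneg_right ?_ (norm_nonneg _))
      refine (norm_sub_le _ _).trans (add_le_add le_rfl ?_)
      rcases Nat.even_or_odd n with h | h
      · rw [h.neg_pow]; exact hC n
      · rw [h.neg_pow, norm_neg]; exact hC n
    have e2 : ‖(n : ℂ)⁻¹‖ = (n : ℝ)⁻¹ := by simp
    rw [e2]
    calc (n : ℝ)⁻¹ * ‖(1 - (-E) ^ n) * (↑u⁻¹ : 𝔸)‖ ≤ (n : ℝ)⁻¹ * ((‖(1 : 𝔸)‖ + (C * √n + C)) * ‖(↑u⁻¹ : 𝔸)‖) :=
          mul_le_mul_of_nonneg_left e1 (by positivity)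
      _ = _ := by
          have hs : (√(n:ℝ))⁻¹ = (n : ℝ)⁻¹ * √n := by
            have : (n : ℝ) = √n * √n := (Real.mul_self_sqrt hn'.le).symm
            have h0 : √(n:ℝ) ≠ 0 := (Real.sqrt_pos.mpr hn').ne'
            rw [eq_comm]
            field_simp
            rw [Real.sq_sqrt hn'.le]
          rw [hs]
          ring
  have hlim : Tendsto (fun n : ℕ => ((‖(1 : 𝔸)‖ + C) * (n : ℝ)⁻¹ + C * (√(n:ℝ))⁻¹) * ‖(↑u⁻¹ : 𝔸)‖) atTop (𝓝 0) := by
    have h1 : Tendsto (fun n : ℕ => (n : ℝ)⁻¹) atTop (𝓝 0) := tendsto_inv_atTop_nhds_zero_nat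
    have h2 : Tendsto (fun n : ℕ => (√(n:ℝ))⁻¹) atTop (𝓝 0) := 
      tendsto_inv_atTop_zero.comp (Real.tendsto_sqrt_atTop.comp tendsto_natCast_atTop_atTop)
    have := ((h1.const_mul (‖(1 : 𝔸)‖ + C)).add (h2.const_mul C)).mul_const ‖(↑u⁻¹ : 𝔸)‖
    simpa using this
  refine squeeze_zero' (Eventually.of_forall fun n => norm_nonneg _) ?_ hlim
  filter_upwards [eventually_ge_atTop 1] with n hn
  exact hb n hn

end banach

section growth

variable (p : ℝ≥0∞) [hp : Fact (1 ≤ p)]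

omit [Group G] in
lemma norm_one_clm_le : ‖(1 : lp (fun _ : G => ℂ) p →L[ℂ] lp (fun _ : G => ℂ) p)‖ ≤ 1 := 
  ContinuousLinearMap.norm_id_le

lemma trans_invol {s : G} (hs : s * s = 1) : trans p s * trans p s = 1 := by
  rw [← trans_mul, hs, trans_one]

/-- the `j`-th rotation factor -/
lemma exp_factor {s : G} (hs : s * s = 1) (θ : ℝ) : 
    exp ((Complex.I * θ) • trans p s) = (Real.cos θ : ℂ) • 1 + (Complex.I * Real.sin θ) • trans p s := by
  rw [exp_smul_invol (trans_invol p hs)]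
  rw [mul_comm, Complex.cosh_mul_I, Complex.sinh_mul_I, mul_comm (Complex.sin _)]
  push_cast
  rfl

lemma cos_sin_le (θ : ℝ) : |Real.cos θ| + |Real.sin θ| ≤ √2 := by
  apply Real.le_sqrt_of_sq_le
  have h := Real.cos_sq_add_sin_sq θ
  have h1 := sq_nonneg (|Real.cos θ| - |Real.sin θ|)
  have h2 := sq_abs (Real.cos θ)
  have h3 := sq_abs (Real.sin θ)
  nlinarith

lemma norm_exp_factor_le {s : G} (hs : s * s = 1) (θ : ℝ) : 
    ‖exp ((Complex.I * θ) • trans p s)‖ ≤ √2 := by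
  rw [exp_factor p hs]
  refine (norm_add_le _ _).trans (le_trans (add_le_add ?_ ?_) (cos_sin_le θ))
  · rw [norm_smul]
    simp only [Complex.norm_real, Real.norm_eq_abs]
    exact mul_le_of_le_one_right (abs_nonneg _) (norm_one_clm_le p)
  · rw [norm_smul]
    simp only [norm_mul, Complex.norm_I, one_mul, Complex.norm_real, Real.norm_eq_abs]
    exact mul_le_of_le_one_right (abs_nonneg _) (norm_trans_le p s)


/-- partial sums of the generator, at time `t` -/
noncomputable def part (s : ℕ → G) (ε : ℕ → ℝ) (m : ℕ) (t : ℝ) : 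
    lp (fun _ : G => ℂ) p →L[ℂ] lp (fun _ : G => ℂ) p :=
  ∑ j ∈ Finset.range m, (Complex.I * ((t * ε j : ℝ) : ℂ)) • trans p (s j)

variable {s : ℕ → G} {ε : ℕ → ℝ}

lemma smul_gen_eq (hε : Summable ε) (hε0 : ∀ j, 0 ≤ ε j) (m : ℕ) (t : ℝ) :
    (t : ℂ) • gen p s ε = part p s ε m t + (t : ℂ) • gen p (fun j => s (j + m)) (fun j => ε (j + m)) := by
  have h := (summable_gen p s hε hε0).sum_add_tsum_nat_add m
  unfold gen part
  rw [← h, smul_add, Finset.smul_sum]
  congr 1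
  apply Finset.sum_congr rfl
  intro j _
  rw [smul_smul]
  congr 1
  push_cast
  ring

lemma trans_commute (hcomm : ∀ i j, s i * s j = s j * s i) (i j : ℕ) : 
    Commute (trans p (s i)) (trans p (s j)) := by
  rw [Commute, SemiconjBy, ← trans_mul, ← trans_mul, hcomm]

lemma part_commute_trans (hcomm : ∀ i j, s i * s j = s j * s i) (m : ℕ) (t : ℝ) (j : ℕ) : 
    Commute (part p s ε m t) (trans p (s j)) := by
  apply Commute.sum_left
  intro i _
  exact (trans_commute p hcomm i j).smul_left _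

lemma exp_part_succ (hcomm : ∀ i j, s i * s j = s j * s i) (m : ℕ) (t : ℝ) : 
    exp (part p s ε (m + 1) t) = exp ((Complex.I * ((t * ε m : ℝ) : ℂ)) • trans p (s m)) * 
      exp (part p s ε m t) := by
  let _ : NormedAlgebra ℚ (lp (fun _ : G => ℂ) p →L[ℂ] lp (fun _ : G => ℂ) p) := 
    NormedAlgebra.restrictScalars ℚ ℂ _
  rw [← exp_add_of_commute]
  · congr 1
    unfold part
    rw [Finset.sum_range_succ, add_comm]
  · exact ((part_commute_trans p hcomm m t m).symm.smul_left _)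

lemma norm_exp_part_le (hcomm : ∀ i j, s i * s j = s j * s i) (hs : ∀ j, s j * s j = 1) 
    (m : ℕ) (t : ℝ) : ‖exp (part p s ε m t)‖ ≤ √2 ^ m := by
  induction m with
  | zero => 
    have : part p s ε 0 t = 0 := by simp [part]
    rw [this, exp_zero]
    simpa using norm_one_clm_le p
  | succ m ih =>
    rw [exp_part_succ p hcomm, pow_succ']
    exact (norm_mul_le _ _).trans (mul_le_mul (norm_exp_factor_le p (hs m) _) ih (norm_nonneg _) 
      (Real.sqrt_nonneg _))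

lemma gen_tail_commute (hcomm : ∀ i j, s i * s j = s j * s i) (m : ℕ) (t t' : ℝ) 
    (hε : Summable ε) (hε0 : ∀ j, 0 ≤ ε j) :
    Commute (part p s ε m t) ((t' : ℂ) • gen p (fun j => s (j + m)) (fun j => ε (j + m))) := by
  apply Commute.smul_right
  unfold gen
  have hsum := summable_gen p (fun j => s (j + m)) (ε := fun j => ε (j + m)) 
    ((summable_nat_add_iff m).mpr hε) (fun j => hε0 _)
  rw [Commute, SemiconjBy, ← hsum.tsum_mul_left, ← hsum.tsum_mul_right]
  apply tsum_congr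
  intro j
  exact (part_commute_trans p hcomm m t (j + m)).smul_right _

lemma exp_gen_eq (hcomm : ∀ i j, s i * s j = s j * s i)  
    (hε : Summable ε) (hε0 : ∀ j, 0 ≤ ε j) (m : ℕ) (t : ℝ) :
    exp ((t : ℂ) • gen p s ε) = exp (part p s ε m t) * 
      exp ((t : ℂ) • gen p (fun j => s (j + m)) (fun j => ε (j + m))) := by
  let _ : NormedAlgebra ℚ (lp (fun _ : G => ℂ) p →L[ℂ] lp (fun _ : G => ℂ) p) := 
    NormedAlgebra.restrictScalars ℚ ℂ _
  rw [smul_gen_eq p hε hε0 m t, exp_add_of_commute (gen_tail_commute p hcomm m t t hε hε0)]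

lemma norm_exp_tail_le (hε : Summable ε) (hε0 : ∀ j, 0 ≤ ε j) (m : ℕ) (t : ℝ) :
    ‖exp ((t : ℂ) • gen p (fun j => s (j + m)) (fun j => ε (j + m)))‖ ≤ 
      Real.exp (|t| * ∑' j, ε (j + m)) := by
  refine (norm_exp_le' (norm_one_clm_le p) _).trans (Real.exp_le_exp.mpr ?_)
  rw [norm_smul]
  simp only [Complex.norm_real, Real.norm_eq_abs]
  exact mul_le_mul_of_nonneg_left (norm_gen_le p _ ((summable_nat_add_iff m).mpr hε) (fun j => hε0 _)) 
    (abs_nonneg _)

lemma norm_exp_gen_le (hcomm : ∀ i j, s i * s j = s j * s i) (hs : ∀ j, s j * s j = 1) 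
    (hε : Summable ε) (hε0 : ∀ j, 0 ≤ ε j) (m : ℕ) (t : ℝ) :
    ‖exp ((t : ℂ) • gen p s ε)‖ ≤ √2 ^ m * Real.exp (|t| * ∑' j, ε (j + m)) := by
  rw [exp_gen_eq p hcomm hε hε0 m t]
  exact (norm_mul_le _ _).trans (mul_le_mul (norm_exp_part_le p hcomm hs m t) 
    (norm_exp_tail_le p hε hε0 m t) (norm_nonneg _) (by positivity))

omit [Group G] in
lemma norm_add_disjoint (hpt : p ≠ ∞) {f g : lp (fun _ : G => ℂ) p} (h : ∀ x, f x = 0 ∨ g x = 0) 
    {a b : ℂ} {r : ℝ} (ha : ‖a‖ = r) (hb : ‖b‖ = r) (hfg : ‖g‖ = ‖f‖) :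
    ‖a • f + b • g‖ ^ p.toReal = r ^ p.toReal * 2 * ‖f‖ ^ p.toReal := by
  have hp0 : 0 < p.toReal := ENNReal.toReal_pos (zero_lt_one.trans_le hp.out).ne' hpt
  have hr : 0 ≤ r := ha ▸ norm_nonneg a
  have e1 : r ^ p.toReal * 2 * ‖f‖ ^ p.toReal = r ^ p.toReal * (‖f‖ ^ p.toReal + ‖g‖ ^ p.toReal) := by
    rw [hfg]; ring
  rw [e1, lp.norm_rpow_eq_tsum hp0, lp.norm_rpow_eq_tsum hp0, lp.norm_rpow_eq_tsum hp0,
    ← ((lp.memℓp f).summable hp0).tsum_add ((lp.memℓp g).summable hp0), ← tsum_mul_left]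
  apply tsum_congr
  intro x
  rw [lp.coeFn_add, Pi.add_apply, lp.coeFn_smul, lp.coeFn_smul, Pi.smul_apply, Pi.smul_apply]
  rcases h x with h | h
  · rw [h, smul_zero, zero_add, norm_smul, hb, norm_zero, Real.zero_rpow hp0.ne', zero_add,
      Real.mul_rpow hr (norm_nonneg _)]
  · rw [h, smul_zero, add_zero, norm_smul, ha, norm_zero, Real.zero_rpow hp0.ne', add_zero,
      Real.mul_rpow hr (norm_nonneg _)]


lemma growth_aux [DecidableEq G] (hpt : p ≠ ∞) (hcomm : ∀ i j, s i * s j = s j * s i) (hs : ∀ j, s j * s j = 1)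
    {c : ℕ → G → ZMod 2} (hc1 : ∀ j, c j 1 = 0) (hcs : ∀ j x, c j (s j * x) = c j x + 1)
    (hcn : ∀ i j x, i ≠ j → c j (s i * x) = c j x) {m : ℕ} {t r : ℝ}
    (hcos : ∀ j < m, |Real.cos (t * ε j)| = r) (hsin : ∀ j < m, |Real.sin (t * ε j)| = r) (k : ℕ) 
    (hk : k ≤ m) :
    ‖exp (part p s ε k t) (lp.single p 1 1)‖ ^ p.toReal = (r ^ p.toReal * 2) ^ k ∧ 
    ∀ x, exp (part p s ε k t) (lp.single p 1 1) x ≠ 0 → ∀ j, k ≤ j → c j x = 0 := by
  have hp0 : 0 < p := zero_lt_one.trans_le hp.out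
  induction k with
  | zero => 
    have : part p s ε 0 t = 0 := by simp [part]
    rw [this, exp_zero]
    constructor
    · rw [one_apply_eq_self, lp.norm_single hp0]
      simp
    · intro x hx j _
      by_cases h : x = 1
      · rw [h, hc1]
      · exfalso
        apply hx
        rw [one_apply_eq_self, lp.single_apply_ne p 1 _ h]
  | succ k ih =>
    obtain ⟨ih1, ih2⟩ := ih (by omega)
    set v := exp (part p s ε k t) (lp.single p 1 1) with hv
    have hstep : exp (part p s ε (k+1) t) (lp.single p 1 1) = 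
        ((Real.cos (t * ε k) : ℝ) : ℂ) • v + (Complex.I * ((Real.sin (t * ε k) : ℝ) : ℂ)) • trans p (s k) v := by
      rw [exp_part_succ p hcomm, exp_factor p (hs k)]
      rfl
    have hck : ∀ x, c k ((s k)⁻¹ * x) = c k x + 1 := by
      intro x
      have h1 : (s k)⁻¹ = s k := inv_eq_of_mul_eq_one_left (hs k)
      rw [h1, hcs]
    have hcj : ∀ j x, k ≠ j → c j ((s k)⁻¹ * x) = c j x := by
      intro j x hj
      have h1 : (s k)⁻¹ = s k := inv_eq_of_mul_eq_one_left (hs k)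
      rw [h1, hcn k j x hj]
    constructor
    · rw [hstep, norm_add_disjoint p hpt (r := r) _ _ _ (norm_trans_apply p _ _), ih1, pow_succ']
      · intro x
        by_contra hcon
        push Not at hcon
        have h1 := ih2 x hcon.1 k le_rfl
        have h2 := ih2 _ hcon.2 k le_rfl
        rw [hck, h1] at h2
        simp at h2
      · rw [Complex.norm_real, Real.norm_eq_abs]; exact hcos k (by omega)
      · rw [norm_mul, Complex.norm_I, one_mul, Complex.norm_real, Real.norm_eq_abs]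
        exact hsin k (by omega)
    · intro x hx j hj
      rw [hstep, lp.coeFn_add, Pi.add_apply, lp.coeFn_smul, lp.coeFn_smul, Pi.smul_apply, 
        Pi.smul_apply] at hx
      by_cases h1 : v x = 0
      · have h2 : v ((s k)⁻¹ * x) ≠ 0 := by
          intro h2
          apply hx
          rw [h1, trans_apply, h2]
          simp
        rw [← hcj j x (by omega)]
        exact ih2 _ h2 j (by omega)
      · exact ih2 x h1 j (by omega)

end growth

/-! ### the concrete data -/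

/-- the group `⊕_{j ∈ ℕ} ℤ/2`, written multiplicatively -/
abbrev GG : Type := Multiplicative (ℕ →₀ ZMod 2)

/-- its standard generators -/
noncomputable def sg (j : ℕ) : GG := Multiplicative.ofAdd (Finsupp.single j 1)

/-- coordinates -/
def cg (j : ℕ) (x : GG) : ZMod 2 := (Multiplicative.toAdd x) j

/-- angles -/
noncomputable def eg (j : ℕ) : ℝ := Real.pi / 4 * (1/9) ^ (j + 1)

lemma sg_sq (j : ℕ) : sg j * sg j = 1 := by
  unfold sg
  rw [← ofAdd_add, ← Finsupp.single_add]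
  have : (1 + 1 : ZMod 2) = 0 := by decide
  rw [this]
  simp

lemma cg_sg (j : ℕ) (x : GG) : cg j (sg j * x) = cg j x + 1 := by
  simp [cg, sg, add_comm]

lemma cg_sg_ne (i j : ℕ) (x : GG) (h : i ≠ j) : cg j (sg i * x) = cg j x := by
  simp [cg, sg, h]

lemma eg_nonneg (j : ℕ) : 0 ≤ eg j := by unfold eg; positivity

lemma eg_hasSum (m : ℕ) : HasSum (fun j => eg (j + m)) (Real.pi / 32 * (1/9) ^ m) := by
  have h := (hasSum_geometric_of_lt_one (r := (1/9 : ℝ)) (by norm_num) (by norm_num)).mul_left 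
    (Real.pi / 4 * (1/9) ^ (m + 1))
  have e : (Real.pi / 4 * (1/9) ^ (m + 1)) * (1 - 1/9)⁻¹ = Real.pi / 32 * (1/9) ^ m := by
    rw [pow_succ]; ring
  rw [e] at h
  have e2 : (fun j => eg (j + m)) = fun j => Real.pi / 4 * (1/9) ^ (m + 1) * (1/9) ^ j := by
    funext j
    unfold eg
    rw [show j + m + 1 = (m + 1) + j by ring, pow_add]
    ring
  rw [e2]
  exact h

lemma eg_summable : Summable eg := by
  have := (eg_hasSum 0).summable
  simpa using this

lemma eg_tail (m : ℕ) : ∑' j, eg (j + m) = Real.pi / 32 * (1/9) ^ m := (eg_hasSum m).tsum_eq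

lemma angle (m j : ℕ) (h : j < m) : Real.cos (9 ^ m * eg j) = √2 / 2 ∧ Real.sin (9 ^ m * eg j) = √2 / 2 := by
  obtain ⟨k, rfl⟩ : ∃ k, m = j + 1 + k := ⟨m - (j + 1), by omega⟩
  obtain ⟨q, hq⟩ : ∃ q : ℕ, 9 ^ k = 8 * q + 1 := by
    have : 9 ^ k % 8 = 1 := by
      rw [Nat.pow_mod]; simp
    exact ⟨9 ^ k / 8, by omega⟩
  have e : (9:ℝ) ^ (j + 1 + k) * eg j = Real.pi / 4 + q * (2 * Real.pi) := by
    unfold eg
    have hq' : (9:ℝ) ^ k = 8 * q + 1 := by exact_mod_cast hq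
    rw [pow_add, hq']
    have : (9:ℝ) ^ (j+1) * (1/9) ^ (j+1) = 1 := by
      rw [← mul_pow]; norm_num
    calc (9:ℝ) ^ (j + 1) * (8 * q + 1) * (Real.pi / 4 * (1 / 9) ^ (j + 1)) 
        = ((9:ℝ) ^ (j+1) * (1/9) ^ (j+1)) * (Real.pi / 4 * (8 * q + 1)) := by ring
      _ = _ := by rw [this]; ring
  rw [e, Real.cos_add_nat_mul_two_pi, Real.sin_add_nat_mul_two_pi, Real.cos_pi_div_four, Real.sin_pi_div_four]
  exact ⟨rfl, rfl⟩


section final

variable (p : ℝ≥0∞) [hp : Fact (1 ≤ p)]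

/-- the exponential of the generator -/
noncomputable def EE : lp (fun _ : GG => ℂ) p →L[ℂ] lp (fun _ : GG => ℂ) p := exp (gen p sg eg)

lemma EE_pow (n : ℕ) : EE p ^ n = exp ((((n : ℕ) : ℝ) : ℂ) • gen p sg eg) := by
  let _ : NormedAlgebra ℚ (lp (fun _ : GG => ℂ) p →L[ℂ] lp (fun _ : GG => ℂ) p) := 
    NormedAlgebra.restrictScalars ℚ ℂ _
  unfold EE
  rw [← exp_nsmul]
  congr 1
  rw [Complex.ofReal_natCast, Nat.cast_smul_eq_nsmul]

lemma sg_comm (i j : ℕ) : sg i * sg j = sg j * sg i := mul_comm _ _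

lemma EE_pow_le (n : ℕ) : ‖EE p ^ n‖ ≤ 4 * √n + 4 := by
  have hpi : Real.pi / 32 ≤ 1 / 9 := by linarith [Real.pi_lt_d2]
  have hexp : Real.exp (1/9) ≤ 2 := by
    have := Real.exp_one_lt_d9
    have h1 : Real.exp (1/9) ≤ Real.exp 1 ^ (1/9 : ℝ) := by
      rw [← Real.exp_mul]; simp
    have h3 : Real.exp (1/9) ≤ 1 / (1 - 1/9) := by
      have := Real.add_one_le_exp (-(1/9 : ℝ))
      rw [Real.exp_neg] at this
      rw [le_div_iff₀ (by norm_num)]
      have h4 := mul_le_mul_of_nonneg_left this (Real.exp_pos (1/9)).le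
      rw [mul_inv_cancel₀ (Real.exp_pos _).ne'] at h4
      linarith
    refine h3.trans (by norm_num)
  -- choose `m` with `n ≤ 9 ^ m` and `√2 ^ m ≤ 2 √n + 2`
  obtain ⟨m, hm1, hm2⟩ : ∃ m : ℕ, (n : ℝ) ≤ 9 ^ m ∧ √2 ^ m ≤ 2 * √n + 2 := by
    rcases Nat.lt_or_ge n 2 with h | h
    · refine ⟨0, ?_, ?_⟩
      · have : n ≤ 1 := by omega
        simpa using (show (n:ℝ) ≤ 1 by exact_mod_cast this)
      · have := Real.sqrt_nonneg (n : ℝ)
        simp; linarith
    · have hn : 1 < n := by omega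
      refine ⟨Nat.clog 9 n, ?_, ?_⟩
      · exact_mod_cast Nat.le_pow_clog (by norm_num) n
      · have h1 : 9 ^ (Nat.clog 9 n).pred < n := Nat.pow_pred_clog_lt_self (by norm_num) hn
        have h2 : 0 < Nat.clog 9 n := Nat.clog_pos (by norm_num) (by omega)
        obtain ⟨k, hk⟩ : ∃ k, Nat.clog 9 n = k + 1 := ⟨Nat.clog 9 n - 1, by omega⟩
        rw [hk] at h1 ⊢
        simp only [Nat.pred_succ] at h1
        have h3 : (3:ℝ) ^ k ≤ √n := by
          apply Real.le_sqrt_of_sq_le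
          rw [← pow_mul, mul_comm, pow_mul]
          norm_num
          exact_mod_cast h1.le
        have h4 : √2 ≤ 2 := by
          rw [Real.sqrt_le_left (by norm_num)]; norm_num
        have h5 : √2 ^ k ≤ 3 ^ k := pow_le_pow_left₀ (Real.sqrt_nonneg _) (by linarith) k
        rw [pow_succ]
        have h6 : √2 ^ k * √2 ≤ √n * 2 := mul_le_mul (h5.trans h3) h4 (Real.sqrt_nonneg _) (Real.sqrt_nonneg _)
        linarith
  rw [EE_pow]
  have h := norm_exp_gen_le p sg_comm sg_sq eg_summable eg_nonneg m (n : ℝ)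
  rw [eg_tail] at h
  have h2 : |(n:ℝ)| * (Real.pi / 32 * (1/9) ^ m) ≤ 1/9 := by
    rw [abs_of_nonneg (by positivity)]
    have h3 : (n:ℝ) * (1/9) ^ m ≤ 1 := by
      calc (n:ℝ) * (1/9) ^ m ≤ 9 ^ m * (1/9) ^ m := mul_le_mul_of_nonneg_right hm1 (by positivity)
        _ = 1 := by rw [← mul_pow]; norm_num
    calc (n:ℝ) * (Real.pi / 32 * (1/9) ^ m) = (Real.pi / 32) * ((n:ℝ) * (1/9) ^ m) := by ring
      _ ≤ (Real.pi / 32) * 1 := mul_le_mul_of_nonneg_left h3 (by positivity)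
      _ ≤ 1/9 := by linarith
  refine h.trans ?_
  calc √2 ^ m * Real.exp (|(n:ℝ)| * (Real.pi / 32 * (1/9) ^ m)) ≤ (2 * √n + 2) * 2 := by
        apply mul_le_mul hm2 ((Real.exp_le_exp.mpr h2).trans hexp) (Real.exp_pos _).le (by positivity)
    _ = 4 * √n + 4 := by ring

lemma EE_sub_one : ‖EE p - 1‖ < 2 := by
  refine (norm_exp_sub_one_le' (norm_one_clm_le p) _).trans_lt ?_
  have h1 := norm_gen_le p sg eg_summable eg_nonneg
  have h2 := eg_tail 0
  simp only [add_zero, pow_zero, mul_one] at h2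
  rw [h2] at h1
  have h3 : ‖gen p sg eg‖ < 1 := by
    have := Real.pi_lt_d2
    linarith
  have h4 := Real.exp_lt_exp.mpr h3
  have := Real.exp_one_lt_d9
  linarith


lemma clm_pow_apply {X : Type*} [NormedAddCommGroup X] [NormedSpace ℂ X] (T : X →L[ℂ] X) (n : ℕ)
    (f : X) : (T ^ n) f = (⇑T)^[n] f := by
  induction n generalizing f with
  | zero => rfl
  | succ n ih => rw [pow_succ, mul_apply_eq_comp, ih]; rfl

lemma cesaro_EE : 
    Tendsto (fun n : ℕ => (n : ℂ)⁻¹ • ∑ k ∈ Finset.range n, (-EE p) ^ k) atTop (𝓝 0) :=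
  cesaro_neg (EE_sub_one p) (EE_pow_le p)

lemma meanErgodic_neg_EE : MeanErgodic (⇑(-EE p)) := by
  intro f
  simp only [← clm_pow_apply]
  refine ⟨0, ?_⟩
  have h := ((ContinuousLinearMap.apply ℂ (lp (fun _ : GG => ℂ) p) f).continuous.tendsto 0).comp 
    (cesaro_EE p)
  rw [map_zero] at h
  refine h.congr ?_
  intro n
  simp only [Function.comp_apply, ContinuousLinearMap.apply_apply]
  rw [smul_apply, sum_apply]

lemma not_powerBounded (hpt : p ≠ ∞) (hp2 : p ≠ 2) : ¬ PowerBounded (⇑(-EE p)) := by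
  rintro ⟨C', hC'⟩
  obtain ⟨C, hC⟩ : ∃ C : ℝ, ∀ n : ℕ, ‖(-EE p) ^ n‖ ≤ C := by
    refine ⟨max C' 0, fun n => ContinuousLinearMap.opNorm_le_bound _ (le_max_right _ _) fun f => ?_⟩
    rw [clm_pow_apply]
    exact (hC' n f).trans (mul_le_mul_of_nonneg_right (le_max_left _ _) (norm_nonneg _))
  have hp0 : 0 < p := zero_lt_one.trans_le hp.out
  have hpr : 0 < p.toReal := ENNReal.toReal_pos hp0.ne' hpt
  have hE : ∀ n : ℕ, ‖EE p ^ n‖ ≤ C := by
    intro n
    have h := hC n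
    rcases Nat.even_or_odd n with h' | h'
    · rwa [h'.neg_pow] at h
    · rwa [h'.neg_pow, norm_neg] at h
  have hC0 : 0 ≤ C := (norm_nonneg _).trans (hE 0)
  set D : ℝ := C * Real.exp 1 with hD
  have hD0 : 0 ≤ D := by positivity
  -- the finite products are bounded
  have hpart : ∀ m : ℕ, ‖exp (part p sg eg m (9 ^ m))‖ ≤ D := by
    intro m
    let _ : NormedAlgebra ℚ (lp (fun _ : GG => ℂ) p →L[ℂ] lp (fun _ : GG => ℂ) p) := 
      NormedAlgebra.restrictScalars ℚ ℂ _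
    set tail := gen p (fun j => sg (j + m)) (fun j => eg (j + m)) with htail
    have h1 := exp_gen_eq p sg_comm eg_summable eg_nonneg m ((9:ℝ) ^ m)
    rw [← htail] at h1
    have h2 : exp ((((9:ℝ) ^ m : ℝ) : ℂ) • tail) * exp (-((((9:ℝ) ^ m : ℝ) : ℂ) • tail)) = 1 := by
      rw [← exp_add_of_commute (Commute.neg_right (Commute.refl _)), add_neg_cancel, exp_zero]
    have h3 : exp (part p sg eg m (9 ^ m)) = 
        exp ((((9:ℝ) ^ m : ℝ) : ℂ) • gen p sg eg) * exp (-((((9:ℝ) ^ m : ℝ) : ℂ) • tail)) := by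
      rw [h1, mul_assoc, h2, mul_one]
    have h4 : ‖exp ((((9:ℝ) ^ m : ℝ) : ℂ) • gen p sg eg)‖ ≤ C := by
      have := hE (9 ^ m)
      rw [EE_pow] at this
      push_cast at this ⊢
      exact this
    have h5 : ‖exp (-((((9:ℝ) ^ m : ℝ) : ℂ) • tail))‖ ≤ Real.exp 1 := by
      refine (norm_exp_le' (norm_one_clm_le p) _).trans (Real.exp_le_exp.mpr ?_)
      rw [norm_neg, norm_smul]
      have h6 := norm_gen_le p (fun j => sg (j + m)) (ε := fun j => eg (j + m)) 
        ((summable_nat_add_iff m).mpr eg_summable) (fun j => eg_nonneg _)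
      rw [eg_tail, ← htail] at h6
      have h7 : ‖(((9:ℝ) ^ m : ℝ) : ℂ)‖ = 9 ^ m := by simp
      rw [h7]
      calc (9:ℝ) ^ m * ‖tail‖ ≤ 9 ^ m * (Real.pi / 32 * (1/9) ^ m) := 
            mul_le_mul_of_nonneg_left h6 (by positivity)
        _ = Real.pi / 32 * (9 * (1/9)) ^ m := by rw [mul_pow]; ring
        _ ≤ 1 := by
          norm_num
          linarith [Real.pi_lt_d2]
    rw [h3]
    exact (norm_mul_le _ _).trans (mul_le_mul h4 h5 (norm_nonneg _) hC0)
  set r : ℝ := √2 / 2 with hr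
  have hr0 : 0 < r := by positivity
  set ρ : ℝ := r ^ p.toReal * 2 with hρ
  have hρ0 : 0 < ρ := by positivity
  have hcos : ∀ m j : ℕ, j < m → |Real.cos (9 ^ m * eg j)| = r := by
    intro m j h
    rw [(angle m j h).1, abs_of_pos hr0]
  have hsin : ∀ m j : ℕ, j < m → |Real.sin (9 ^ m * eg j)| = r := by
    intro m j h
    rw [(angle m j h).2, abs_of_pos hr0]
  have hcg1 : ∀ j, cg j 1 = 0 := by intro j; simp [cg]
  have hsingle : ‖(lp.single p 1 1 : lp (fun _ : GG => ℂ) p)‖ = 1 := by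
    rw [lp.norm_single hp0]; simp
  have hup : ∀ m : ℕ, ρ ^ m ≤ D ^ p.toReal := by
    intro m
    have h1 := (growth_aux p hpt sg_comm sg_sq (c := cg) hcg1 cg_sg cg_sg_ne (hcos m) (hsin m) m le_rfl).1
    rw [← h1]
    apply Real.rpow_le_rpow (norm_nonneg _) _ hpr.le
    refine (ContinuousLinearMap.le_opNorm _ _).trans ?_
    rw [hsingle, mul_one]
    exact hpart m
  have hlow : ∀ m : ℕ, 1 ≤ D ^ p.toReal * ρ ^ m := by
    intro m
    let _ : NormedAlgebra ℚ (lp (fun _ : GG => ℂ) p →L[ℂ] lp (fun _ : GG => ℂ) p) := 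
      NormedAlgebra.restrictScalars ℚ ℂ _
    have h1 := (growth_aux p hpt sg_comm sg_sq (c := cg) (ε := eg) (t := -(9 ^ m)) hcg1 cg_sg cg_sg_ne 
      (m := m) (r := r) (by
        intro j hj
        rw [neg_mul, Real.cos_neg]; exact hcos m j hj) (by
        intro j hj
        rw [neg_mul, Real.sin_neg, abs_neg]; exact hsin m j hj) m le_rfl).1
    have h2 : part p sg eg m (-(9 ^ m)) = - part p sg eg m (9 ^ m) := by
      unfold part
      rw [← Finset.sum_neg_distrib]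
      apply Finset.sum_congr rfl
      intro j _
      rw [← neg_smul]
      congr 1
      push_cast
      ring
    have h3 : (lp.single p 1 1 : lp (fun _ : GG => ℂ) p) = exp (part p sg eg m (9 ^ m)) 
        (exp (part p sg eg m (-(9 ^ m))) (lp.single p 1 1)) := by
      rw [← mul_apply_eq_comp, h2, ← exp_add_of_commute (Commute.neg_right (Commute.refl _)), 
        add_neg_cancel, exp_zero]
      rfl
    have h4 : 1 ≤ D * ‖exp (part p sg eg m (-(9 ^ m))) (lp.single p 1 1)‖ := by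
      rw [← hsingle, h3]
      refine (ContinuousLinearMap.le_opNorm _ _).trans ?_
      rw [← h3]
      exact mul_le_mul_of_nonneg_right (hpart m) (norm_nonneg _)
    have h5 := Real.rpow_le_rpow zero_le_one h4 hpr.le
    rw [Real.one_rpow, Real.mul_rpow hD0 (norm_nonneg _), h1] at h5
    exact h5
  -- hence `ρ = 1`
  have hρ1 : ρ ≤ 1 := by
    by_contra hcon
    push Not at hcon
    obtain ⟨m, hm⟩ := pow_unbounded_of_one_lt (D ^ p.toReal) hcon
    exact absurd (hup m) (not_le.mpr hm)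
  have hρ2 : 1 ≤ ρ := by
    by_contra hcon
    push Not at hcon
    have hDp : 0 ≤ D ^ p.toReal := by positivity
    have ht : Tendsto (fun m : ℕ => D ^ p.toReal * ρ ^ m) atTop (𝓝 (D ^ p.toReal * 0)) := 
      (tendsto_pow_atTop_nhds_zero_of_lt_one hρ0.le hcon).const_mul _
    rw [mul_zero] at ht
    have := ge_of_tendsto' ht hlow
    linarith
  have hρe : ρ = 1 := le_antisymm hρ1 hρ2
  -- so `p = 2`
  have hr2 : r = 2 ^ (-(1/2) : ℝ) := by
    rw [hr, Real.rpow_neg (by norm_num), ← Real.sqrt_eq_rpow]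
    have h2 : √2 * √2 = 2 := Real.mul_self_sqrt (by norm_num)
    have h0 : √2 ≠ 0 := by positivity
    rw [div_eq_iff (by norm_num), eq_comm, inv_mul_eq_iff_eq_mul₀ h0]
    exact h2.symm
  rw [hρ, hr2, ← Real.rpow_mul (by norm_num)] at hρe
  have h6 : (2:ℝ) ^ (-(1/2) * p.toReal) * 2 = 2 ^ (-(1/2) * p.toReal + 1) := by
    rw [Real.rpow_add (by norm_num), Real.rpow_one]
  rw [h6] at hρe
  have h7 : -(1/2) * p.toReal + 1 = 0 := by
    have := (Real.rpow_right_inj (by norm_num : (0:ℝ) < 2) (by norm_num)).mp (hρe.trans (Real.rpow_zero 2).symm)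
    exact this
  have h8 : p.toReal = 2 := by linarith
  apply hp2
  rw [← ENNReal.ofReal_toReal hpt, h8]
  norm_num

end final

/-- The measure `μ = - exp (∑_j i ε_j δ_{s_j})` on the discrete group `⊕ ℤ/2`. -/
noncomputable def mu : lp (fun _ : GG => ℂ) 1 := - EE 1 (lp.single 1 1 1)

lemma Lam_single (p : ℝ≥0∞) [hp : Fact (1 ≤ p)] : Lam p (lp.single 1 (1 : GG) (1 : ℂ)) = 1 := by
  rw [Lam_apply, tsum_eq_single (1 : GG)]
  · rw [lp.single_apply_self, trans_one, one_smul]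
  · intro y hy
    rw [lp.single_apply_ne _ _ _ hy, zero_smul]

lemma Lam_mu (p : ℝ≥0∞) [hp : Fact (1 ≤ p)] : Lam p mu = - EE p := by
  unfold mu EE
  rw [map_neg, Lam_exp p (Lam_gen p sg eg_summable eg_nonneg), Lam_single, mul_one]

/-- **Theorem.**  There are a countable discrete abelian group `G` and `μ ∈ M(G) = ℓ¹(G)` such that
for every `1 < p < ∞` with `p ≠ 2` the convolution operator `λ_p(μ)` on `ℓᵖ(G)` is mean ergodic but
not power bounded. -/
theorem main : ∃ (G : Type) (_ : CommGroup G) (_ : Countable G) (μ : G → ℂ),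
    Summable (fun y => ‖μ y‖) ∧
    ∀ (p : ℝ≥0∞) [Fact (1 ≤ p)], 1 < p → p ≠ ∞ → p ≠ 2 →
      ∃ T : lp (fun _ : G => ℂ) p → lp (fun _ : G => ℂ) p,
        IsConvolutionBy μ T ∧ MeanErgodic T ∧ ¬ PowerBounded T := by
  refine ⟨GG, inferInstance, inferInstanceAs (Countable (ℕ →₀ ZMod 2)), mu, 
    summable_norm_lp_one mu, ?_⟩
  intro p hp _ hpt hp2
  refine ⟨⇑(-EE p), ?_, meanErgodic_neg_EE p, not_powerBounded p hpt hp2⟩
  intro f x
  rw [← Lam_mu p]
  exact Lam_apply_apply p mu f x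

end Pool.Agent.Helper58.MeanErgodic
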